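import Mathlib

open Filter Topology

namespace Pool.Agent.Results.MP_e0ec03_al.LowerBound

/-- The relator `t a^p t⁻¹ a^{-q}` (generators `false ↦ a`, `true ↦ t`). -/
def rel (p q : ℕ) : FreeGroup Bool :=
  FreeGroup.of true * FreeGroup.of false ^ p * (FreeGroup.of true)⁻¹ * (FreeGroup.of false ^ q)⁻¹

/-- The Baumslag–Solitar group `B(p,q) = ⟨a, t | t a^p t⁻¹ = a^q⟩`. -/
abbrev B (p q : ℕ) : Type := PresentedGroup ({rel p q} : Set (FreeGroup Bool))

/-- The element of `B(p,q)` represented by a word in `a^{±1}, t^{±1}`. -/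
def val (p q : ℕ) (w : List (Bool × Bool)) : B p q := PresentedGroup.mk _ (FreeGroup.mk w)

/-- The ball of radius `n`. -/
def ball (p q n : ℕ) : Set (B p q) := {g | ∃ w : List (Bool × Bool), w.length ≤ n ∧ val p q w = g}

/-- The number of elements of length at most `n`. -/
noncomputable def beta (p q n : ℕ) : ℕ := (ball p q n).ncard

/-- the block `a^j t` (`true`) or `a^j t⁻¹` (`false`) -/
def blk (p q : ℕ) (b : ℤ × Bool) : B p q :=
  PresentedGroup.of false ^ b.1 * (if b.2 then PresentedGroup.of true else (PresentedGroup.of true)⁻¹)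

def bprod (p q : ℕ) (l : List (ℤ × Bool)) : B p q := (l.map (blk p q)).prod

/-- reduced lists of blocks -/
def Good (l : List (ℤ × Bool)) : Prop :=
  (∀ b ∈ l, b.1.natAbs ≤ 1 ∧ (b.2 = false → b.1 ≠ -1)) ∧
    l.IsChain (fun b b' => b.2 ≠ b'.2 → b'.1 ≠ 0)

def wt (l : List (ℤ × Bool)) : ℕ := (l.map fun b => 1 + b.1.natAbs).sum

abbrev bprod_inj_GZ : Type := Multiplicative ℤ

theorem bprod_inj_gz_mem (p : ℕ) (x : bprod_inj_GZ) :
    x ∈ (powMonoidHom p : bprod_inj_GZ →* bprod_inj_GZ).range ↔ (p : ℤ) ∣ Multiplicative.toAdd x := by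
  constructor
  · rintro ⟨y, rfl⟩
    refine ⟨Multiplicative.toAdd y, ?_⟩
    simp [powMonoidHom, toAdd_pow]
  · rintro ⟨c, hc⟩
    refine ⟨Multiplicative.ofAdd c, ?_⟩
    apply Multiplicative.toAdd.injective
    simp [powMonoidHom, toAdd_pow, hc]

theorem bprod_inj_gz_inj {p : ℕ} (hp : p ≠ 0) : Function.Injective (powMonoidHom p : bprod_inj_GZ →* bprod_inj_GZ) := by
  intro x y h
  have h1 : Multiplicative.toAdd (x ^ p) = Multiplicative.toAdd (y ^ p) := congrArg _ h
  rw [toAdd_pow, toAdd_pow] at h1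
  apply Multiplicative.toAdd.injective
  have h2 : (p : ℤ) * Multiplicative.toAdd x = (p : ℤ) * Multiplicative.toAdd y := by
    simpa using h1
  exact mul_left_cancel₀ (by exact_mod_cast hp) h2

noncomputable def bprod_inj_gzφ {p q : ℕ} (hp : p ≠ 0) (hq : q ≠ 0) :
    (powMonoidHom p : bprod_inj_GZ →* bprod_inj_GZ).range ≃* (powMonoidHom q : bprod_inj_GZ →* bprod_inj_GZ).range :=
  (MonoidHom.ofInjective (bprod_inj_gz_inj hp)).symm.trans (MonoidHom.ofInjective (bprod_inj_gz_inj hq))

abbrev bprod_inj_HN {p q : ℕ} (hp : p ≠ 0) (hq : q ≠ 0) : Type :=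
  HNNExtension bprod_inj_GZ (powMonoidHom p : bprod_inj_GZ →* bprod_inj_GZ).range (powMonoidHom q : bprod_inj_GZ →* bprod_inj_GZ).range (bprod_inj_gzφ hp hq)

theorem bprod_inj_gz_rel {p q : ℕ} (hp : p ≠ 0) (hq : q ≠ 0) :
    (HNNExtension.t : bprod_inj_HN hp hq) * HNNExtension.of (Multiplicative.ofAdd (1 : ℤ)) ^ p =
      HNNExtension.of (Multiplicative.ofAdd (1 : ℤ)) ^ q * HNNExtension.t := by
  have h := HNNExtension.t_mul_of (φ := bprod_inj_gzφ hp hq)
    (MonoidHom.ofInjective (bprod_inj_gz_inj hp) (Multiplicative.ofAdd (1 : ℤ)))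
  have h1 : bprod_inj_gzφ hp hq (MonoidHom.ofInjective (bprod_inj_gz_inj hp) (Multiplicative.ofAdd (1 : ℤ))) =
      MonoidHom.ofInjective (bprod_inj_gz_inj hq) (Multiplicative.ofAdd (1 : ℤ)) := by
    unfold bprod_inj_gzφ
    rw [MulEquiv.trans_apply, MulEquiv.symm_apply_apply]
  rw [h1, MonoidHom.ofInjective_apply, MonoidHom.ofInjective_apply] at h
  have e1 : (HNNExtension.of (Multiplicative.ofAdd (1 : ℤ)) : bprod_inj_HN hp hq) ^ p =
      HNNExtension.of ((powMonoidHom p : bprod_inj_GZ →* bprod_inj_GZ) (Multiplicative.ofAdd (1 : ℤ))) :=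
    (map_pow HNNExtension.of (Multiplicative.ofAdd (1 : ℤ)) p).symm
  have e2 : (HNNExtension.of (Multiplicative.ofAdd (1 : ℤ)) : bprod_inj_HN hp hq) ^ q =
      HNNExtension.of ((powMonoidHom q : bprod_inj_GZ →* bprod_inj_GZ) (Multiplicative.ofAdd (1 : ℤ))) :=
    (map_pow HNNExtension.of (Multiplicative.ofAdd (1 : ℤ)) q).symm
  rw [e1, e2]
  exact h

noncomputable def bprod_inj_psiF {p q : ℕ} (hp : p ≠ 0) (hq : q ≠ 0) : Bool → bprod_inj_HN hp hq
  | false => HNNExtension.of (Multiplicative.ofAdd (1 : ℤ))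
  | true => HNNExtension.t

theorem bprod_inj_psi_rel {p q : ℕ} (hp : p ≠ 0) (hq : q ≠ 0) :
    ∀ r ∈ ({rel p q} : Set (FreeGroup Bool)), FreeGroup.lift (bprod_inj_psiF hp hq) r = 1 := by
  rintro r rfl
  unfold rel
  simp only [map_mul, map_pow, map_inv, FreeGroup.lift_apply_of, bprod_inj_psiF]
  rw [bprod_inj_gz_rel]
  group

noncomputable def bprod_inj_psi {p q : ℕ} (hp : p ≠ 0) (hq : q ≠ 0) : B p q →* bprod_inj_HN hp hq :=
  PresentedGroup.toGroup (bprod_inj_psi_rel hp hq)

def bprod_inj_ub : Bool → ℤˣ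
  | true => 1
  | false => -1

theorem bprod_inj_ub_inj : Function.Injective bprod_inj_ub := by
  intro a b h
  cases a <;> cases b <;> first | rfl | exact absurd h (by decide)

def bprod_inj_hd : List (ℤ × Bool) → ℤ
  | [] => 0
  | b :: _ => b.1

def bprod_inj_tl : List (ℤ × Bool) → List (ℤˣ × bprod_inj_GZ)
  | [] => []
  | b :: l => (bprod_inj_ub b.2, Multiplicative.ofAdd (bprod_inj_hd l)) :: bprod_inj_tl l

theorem bprod_inj_tl_map (l : List (ℤ × Bool)) : (bprod_inj_tl l).map Prod.fst = l.map (fun b => bprod_inj_ub b.2) := by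
  induction l with
  | nil => rfl
  | cons b l ih => simp [bprod_inj_tl, ih]

theorem bprod_inj_good_tail {b : ℤ × Bool} {l : List (ℤ × Bool)} (h : Good (b :: l)) : Good l := by
  refine ⟨fun c hc => h.1 c (List.mem_cons_of_mem _ hc), ?_⟩
  exact (List.isChain_cons.1 h.2).2

theorem bprod_inj_tl_chain {p q : ℕ} (hp : 1 < p) (hq : p < q) (l : List (ℤ × Bool)) (hl : Good l) :
    (bprod_inj_tl l).IsChain (fun a b => a.2 ∈ HNNExtension.toSubgroup (powMonoidHom p : bprod_inj_GZ →* bprod_inj_GZ).range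
      (powMonoidHom q : bprod_inj_GZ →* bprod_inj_GZ).range a.1 → a.1 = b.1) := by
  induction l with
  | nil => exact List.isChain_nil
  | cons b l ih =>
    cases l with
    | nil => exact List.isChain_singleton _
    | cons c m =>
      have ih' := ih (bprod_inj_good_tail hl)
      show List.IsChain _ ((bprod_inj_ub b.2, Multiplicative.ofAdd c.1) ::
        (bprod_inj_ub c.2, Multiplicative.ofAdd (bprod_inj_hd m)) :: bprod_inj_tl m)
      rw [List.isChain_cons_cons]
      refine ⟨?_, ih'⟩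
      intro hm
      by_contra hne
      have hbc : b.2 ≠ c.2 := fun h => hne (by simp only [h])
      have h0 : c.1 ≠ 0 := by
        have := hl.2
        rw [List.isChain_cons_cons] at this
        exact this.1 hbc
      have h1 := (hl.1 c (by simp)).1
      obtain ⟨b1, b2⟩ := b
      cases b2
      · have hm' : Multiplicative.ofAdd c.1 ∈ (powMonoidHom q : bprod_inj_GZ →* bprod_inj_GZ).range := hm
        rw [bprod_inj_gz_mem] at hm'
        have := Int.le_of_dvd (by positivity : (0:ℤ) < |c.1|) ((dvd_abs _ _).2 hm')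
        rw [Int.abs_eq_natAbs] at this
        omega
      · have hm' : Multiplicative.ofAdd c.1 ∈ (powMonoidHom p : bprod_inj_GZ →* bprod_inj_GZ).range := hm
        rw [bprod_inj_gz_mem] at hm'
        have := Int.le_of_dvd (by positivity : (0:ℤ) < |c.1|) ((dvd_abs _ _).2 hm')
        rw [Int.abs_eq_natAbs] at this
        omega

theorem bprod_inj_psi_blk {p q : ℕ} (hp : p ≠ 0) (hq : q ≠ 0) (b : ℤ × Bool) :
    bprod_inj_psi hp hq (blk p q b) =
      HNNExtension.of (Multiplicative.ofAdd b.1) * HNNExtension.t ^ ((bprod_inj_ub b.2 : ℤˣ) : ℤ) := by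
  have e1 : bprod_inj_psi hp hq (PresentedGroup.of false) =
      HNNExtension.of (Multiplicative.ofAdd (1 : ℤ)) := PresentedGroup.toGroup.of _
  have e2 : bprod_inj_psi hp hq (PresentedGroup.of true) = HNNExtension.t := PresentedGroup.toGroup.of _
  have e3 : (HNNExtension.of (Multiplicative.ofAdd (1 : ℤ)) : bprod_inj_HN hp hq) ^ b.1 =
      HNNExtension.of (Multiplicative.ofAdd b.1) := by
    rw [← map_zpow]
    congr 1
    apply Multiplicative.toAdd.injective
    simp [toAdd_zpow]
  unfold blk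
  obtain ⟨j, b2⟩ := b
  cases b2
  · rw [map_mul, map_zpow, e1, e3]
    simp [bprod_inj_ub, e2]
  · rw [map_mul, map_zpow, e1, e3]
    simp [bprod_inj_ub, e2]

theorem bprod_inj_psi_bprod {p q : ℕ} (hp : p ≠ 0) (hq : q ≠ 0) (l : List (ℤ × Bool)) :
    bprod_inj_psi hp hq (bprod p q l) = HNNExtension.of (Multiplicative.ofAdd (bprod_inj_hd l)) *
      ((bprod_inj_tl l).map (fun x => (HNNExtension.t : bprod_inj_HN hp hq) ^ (x.1 : ℤ) * HNNExtension.of x.2)).prod := by
  induction l with
  | nil => simp [bprod, bprod_inj_hd, bprod_inj_tl]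
  | cons b l ih =>
    have e : bprod p q (b :: l) = blk p q b * bprod p q l := by
      unfold bprod
      rw [List.map_cons, List.prod_cons]
    rw [e, map_mul, ih, bprod_inj_psi_blk]
    simp only [bprod_inj_hd, bprod_inj_tl, List.map_cons, List.prod_cons, mul_assoc]

theorem bprod_inj {p q : ℕ} (hp : 1 < p) (hq : p < q) (l l' : List (ℤ × Bool))
    (hl : Good l) (hl' : Good l') (h : bprod p q l = bprod p q l') : l = l' := by
  have hp0 : p ≠ 0 := by omega
  have hq0 : q ≠ 0 := by omega
  induction l generalizing l' with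
  | nil =>
    have key := HNNExtension.ReducedWord.map_fst_eq_and_of_prod_eq (bprod_inj_gzφ hp0 hq0)
      (w₁ := ⟨Multiplicative.ofAdd (bprod_inj_hd []), bprod_inj_tl [], bprod_inj_tl_chain hp hq [] hl⟩)
      (w₂ := ⟨Multiplicative.ofAdd (bprod_inj_hd l'), bprod_inj_tl l', bprod_inj_tl_chain hp hq l' hl'⟩)
      (by
        have h1 := congrArg (bprod_inj_psi hp0 hq0) h
        rw [bprod_inj_psi_bprod, bprod_inj_psi_bprod] at h1
        exact h1)
    have h1 := key.1
    simp only [bprod_inj_tl_map, List.map_nil] at h1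
    exact (List.map_eq_nil_iff.1 h1.symm).symm
  | cons b m ih =>
    have key := HNNExtension.ReducedWord.map_fst_eq_and_of_prod_eq (bprod_inj_gzφ hp0 hq0)
      (w₁ := ⟨Multiplicative.ofAdd (bprod_inj_hd (b :: m)), bprod_inj_tl (b :: m), bprod_inj_tl_chain hp hq (b :: m) hl⟩)
      (w₂ := ⟨Multiplicative.ofAdd (bprod_inj_hd l'), bprod_inj_tl l', bprod_inj_tl_chain hp hq l' hl'⟩)
      (by
        have h1 := congrArg (bprod_inj_psi hp0 hq0) h
        rw [bprod_inj_psi_bprod, bprod_inj_psi_bprod] at h1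
        exact h1)
    obtain ⟨h1, h2⟩ := key
    simp only [bprod_inj_tl_map] at h1
    cases l' with
    | nil => simp at h1
    | cons b' m' =>
      simp only [List.map_cons, List.cons.injEq] at h1
      have hb : b.2 = b'.2 := bprod_inj_ub_inj h1.1
      have h3 := h2 (bprod_inj_ub b.2) (by simp [bprod_inj_tl])
      have g1 := hl.1 b (by simp)
      have g2 := hl'.1 b' (by simp)
      have hj : b.1 = b'.1 := by
        obtain ⟨j, c⟩ := b
        obtain ⟨j', c'⟩ := b'
        simp only at hb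
        subst hb
        by_contra hne
        simp only [bprod_inj_hd] at h3
        have hpos : (0 : ℤ) < |-j + j'| := by
          rw [abs_pos]
          intro h0
          apply hne
          show j = j'
          omega
        cases c
        · have h4 : (Multiplicative.ofAdd j)⁻¹ * Multiplicative.ofAdd j' ∈
              (powMonoidHom p : bprod_inj_GZ →* bprod_inj_GZ).range := by
            simpa [bprod_inj_ub] using h3
          rw [bprod_inj_gz_mem] at h4
          have h5 : (p : ℤ) ∣ -j + j' := by simpa using h4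
          have h6 := Int.le_of_dvd hpos ((dvd_abs _ _).2 h5)
          have a1 := g1.2 rfl
          have a2 := g2.2 rfl
          have a3 := g1.1
          have a4 := g2.1
          simp only at a1 a2 a3 a4
          rcases abs_cases (-j + j') with ⟨h7, _⟩ | ⟨h7, _⟩ <;> rw [h7] at h6 <;> omega
        · have h4 : (Multiplicative.ofAdd j)⁻¹ * Multiplicative.ofAdd j' ∈
              (powMonoidHom q : bprod_inj_GZ →* bprod_inj_GZ).range := by
            simpa [bprod_inj_ub] using h3
          rw [bprod_inj_gz_mem] at h4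
          have h5 : (q : ℤ) ∣ -j + j' := by simpa using h4
          have h6 := Int.le_of_dvd hpos ((dvd_abs _ _).2 h5)
          have a3 := g1.1
          have a4 := g2.1
          simp only at a3 a4
          rcases abs_cases (-j + j') with ⟨h7, _⟩ | ⟨h7, _⟩ <;> rw [h7] at h6 <;> omega
      have hbb : b = b' := Prod.ext hj hb
      subst hbb
      have e : ∀ m, bprod p q (b :: m) = blk p q b * bprod p q m := by
        intro m
        unfold bprod
        rw [List.map_cons, List.prod_cons]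
      rw [e, e] at h
      have h8 := mul_left_cancel h
      rw [ih m' (bprod_inj_good_tail hl) (bprod_inj_good_tail hl') h8]

theorem bprod_mem_val_append562 {p q : ℕ} (w1 w2 : List (Bool × Bool)) :
    val p q (w1 ++ w2) = val p q w1 * val p q w2 := by
  unfold val
  rw [← FreeGroup.mul_mk, map_mul]

theorem bprod_mem_val_nil562 {p q : ℕ} : val p q [] = 1 := by
  unfold val
  rw [← FreeGroup.one_eq_mk, map_one]

theorem bprod_mem_val_true562 {p q : ℕ} (x : Bool) :
    val p q [(x, true)] = (PresentedGroup.of x : B p q) := rfl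

theorem bprod_mem_val_false562 {p q : ℕ} (x : Bool) :
    val p q [(x, false)] = (PresentedGroup.of x : B p q)⁻¹ := by
  have h : (FreeGroup.mk [(x, false)]) = (FreeGroup.of x)⁻¹ := by
    rw [FreeGroup.of, FreeGroup.inv_mk]
    rfl
  unfold val
  rw [h, map_inv]
  rfl

theorem bprod_mem_val_rep562 {p q : ℕ} (y : Bool × Bool) (n : ℕ) :
    val p q (List.replicate n y) = val p q [y] ^ n := by
  induction n with
  | zero => rw [List.replicate_zero, bprod_mem_val_nil562, pow_zero]
  | succ n ih =>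
    rw [List.replicate_succ, show y :: List.replicate n y = [y] ++ List.replicate n y from rfl,
      bprod_mem_val_append562, ih, pow_succ']

theorem bprod_mem_exists_word562 {p q : ℕ} (l : List (ℤ × Bool)) :
    ∃ w : List (Bool × Bool), w.length = wt l ∧ val p q w = bprod p q l := by
  induction l with
  | nil =>
    refine ⟨[], ?_, ?_⟩
    · simp [wt]
    · rw [bprod_mem_val_nil562]; simp [bprod]
  | cons b l ih =>
    obtain ⟨w, hw1, hw2⟩ := ih
    have h1 : ∃ w1 : List (Bool × Bool), w1.length = b.1.natAbs ∧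
        val p q w1 = (PresentedGroup.of false : B p q) ^ b.1 := by
      rcases Int.natAbs_eq b.1 with h | h
      · refine ⟨List.replicate b.1.natAbs (false, true), by simp, ?_⟩
        rw [bprod_mem_val_rep562, bprod_mem_val_true562]
        conv_rhs => rw [h]
        rw [zpow_natCast]
      · refine ⟨List.replicate b.1.natAbs (false, false), by simp, ?_⟩
        rw [bprod_mem_val_rep562, bprod_mem_val_false562]
        conv_rhs => rw [h]
        rw [zpow_neg, zpow_natCast, inv_pow]
    obtain ⟨w1, hl1, hv1⟩ := h1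
    have h2 : ∃ w2 : List (Bool × Bool), w2.length = 1 ∧
        val p q w2 = (if b.2 then (PresentedGroup.of true : B p q) else (PresentedGroup.of true)⁻¹) := by
      by_cases hb : b.2 = true
      · exact ⟨[(true, true)], rfl, by rw [bprod_mem_val_true562, if_pos hb]⟩
      · exact ⟨[(true, false)], rfl, by rw [bprod_mem_val_false562, if_neg hb]⟩
    obtain ⟨w2, hl2, hv2⟩ := h2
    refine ⟨w1 ++ w2 ++ w, ?_, ?_⟩
    · rw [List.length_append, List.length_append, hl1, hl2, hw1]
      simp only [wt, List.map_cons, List.sum_cons]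
      omega
    · rw [bprod_mem_val_append562, bprod_mem_val_append562, hv1, hv2, hw2]
      simp only [bprod, List.map_cons, List.prod_cons, blk]

theorem bprod_mem {p q : ℕ} (l : List (ℤ × Bool)) (n : ℕ) (hn : wt l ≤ n) :
    bprod p q l ∈ ball p q n := by
  obtain ⟨w, hw1, hw2⟩ := bprod_mem_exists_word562 (p := p) (q := q) l
  exact ⟨w, by omega, hw2⟩

theorem ball_finite (p q n : ℕ) : (ball p q n).Finite := by
  have h : {w : List (Bool × Bool) | w.length ≤ n}.Finite := List.finite_length_le (Bool × Bool) n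
  refine (h.image (val p q)).subset ?_
  rintro g ⟨w, hw, rfl⟩
  exact ⟨w, hw, rfl⟩

lemma count_lists_good_cons (s u : Bool) (j : ℤ) (l : List (ℤ × Bool)) (hj : j.natAbs ≤ 1)
    (hj2 : u = false → j ≠ -1) (hsu : s ≠ u → j ≠ 0) (h : Good ((0, u) :: l)) :
    Good ((0, s) :: (j, u) :: l) := by
  obtain ⟨h1, h2⟩ := h
  refine ⟨?_, ?_⟩
  · intro b hb
    simp only [List.mem_cons] at hb
    rcases hb with rfl | rfl | hb
    · simp
    · exact ⟨hj, hj2⟩
    · exact h1 b (List.mem_cons_of_mem _ hb)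
  · rw [List.isChain_cons_cons]
    refine ⟨hsu, ?_⟩
    cases l with
    | nil => exact List.isChain_singleton _
    | cons c l' =>
      rw [List.isChain_cons_cons] at h2 ⊢
      exact h2

lemma count_lists_wt_cons (b : ℤ × Bool) (l : List (ℤ × Bool)) : wt (b :: l) = 1 + b.1.natAbs + wt l := by
  unfold wt
  rw [List.map_cons, List.sum_cons]

/-- (helper) cons as an embedding -/
def count_lists_consE (b : ℤ × Bool) : List (ℤ × Bool) ↪ List (ℤ × Bool) := ⟨List.cons b, List.cons_injective⟩

lemma count_lists_disj_cons (b b' : ℤ × Bool) (h : b ≠ b') (S S' : Finset (List (ℤ × Bool))) :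
    Disjoint (S.map (count_lists_consE b)) (S'.map (count_lists_consE b')) := by
  rw [Finset.disjoint_left]
  intro l hl hl'
  rw [Finset.mem_map] at hl hl'
  obtain ⟨x, _, hx⟩ := hl
  obtain ⟨y, _, hy⟩ := hl'
  rw [← hx] at hy
  have hy' : b' :: y = b :: x := hy
  exact h (List.cons.inj hy').1.symm

lemma count_lists_card4 (b1 b2 b3 b4 : ℤ × Bool) (h12 : b1 ≠ b2) (h13 : b1 ≠ b3) (h14 : b1 ≠ b4)
    (h23 : b2 ≠ b3) (h24 : b2 ≠ b4) (h34 : b3 ≠ b4) (S1 S2 S3 S4 : Finset (List (ℤ × Bool))) :
    (S1.map (count_lists_consE b1) ∪ (S2.map (count_lists_consE b2) ∪ (S3.map (count_lists_consE b3) ∪ S4.map (count_lists_consE b4)))).card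
      = S1.card + (S2.card + (S3.card + S4.card)) := by
  rw [Finset.card_union_of_disjoint, Finset.card_union_of_disjoint, Finset.card_union_of_disjoint,
    Finset.card_map, Finset.card_map, Finset.card_map, Finset.card_map]
  · exact count_lists_disj_cons _ _ h34 _ _
  · rw [Finset.disjoint_union_right]
    exact ⟨count_lists_disj_cons _ _ h23 _ _, count_lists_disj_cons _ _ h24 _ _⟩
  · rw [Finset.disjoint_union_right, Finset.disjoint_union_right]
    exact ⟨count_lists_disj_cons _ _ h12 _ _, count_lists_disj_cons _ _ h13 _ _, count_lists_disj_cons _ _ h14 _ _⟩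

/-- (helper) the induction statement -/
def count_lists_SS (n : ℕ) : Prop := ∃ FA FB : Finset (List (ℤ × Bool)),
  (∀ l ∈ FA, Good ((0, true) :: l) ∧ wt l = n) ∧ (∀ l ∈ FB, Good ((0, false) :: l) ∧ wt l = n) ∧
  ((23 : ℝ) / 10) ^ n ≤ (23 / 10) * (FA.card : ℝ) ∧
  ((23 : ℝ) / 10) ^ n ≤ (23 / 10) * (FB.card : ℝ)

lemma count_lists_good_single (u : Bool) : Good [(0, u)] := by
  refine ⟨?_, List.isChain_singleton _⟩
  intro b hb
  rw [List.mem_singleton] at hb
  subst hb
  simp

lemma count_lists_SS_zero_one : count_lists_SS 0 ∧ count_lists_SS 1 := by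
  constructor
  · refine ⟨{[]}, {[]}, ?_, ?_, ?_, ?_⟩
    · intro l hl
      rw [Finset.mem_singleton] at hl
      subst hl
      exact ⟨count_lists_good_single _, rfl⟩
    · intro l hl
      rw [Finset.mem_singleton] at hl
      subst hl
      exact ⟨count_lists_good_single _, rfl⟩
    · norm_num
    · norm_num
  · refine ⟨{[(0, true)]}, {[(0, false)]}, ?_, ?_, ?_, ?_⟩
    · intro l hl
      rw [Finset.mem_singleton] at hl
      subst hl
      exact ⟨count_lists_good_cons _ _ _ _ (by simp) (by simp) (by simp) (count_lists_good_single _), rfl⟩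
    · intro l hl
      rw [Finset.mem_singleton] at hl
      subst hl
      exact ⟨count_lists_good_cons _ _ _ _ (by simp) (by simp) (by simp) (count_lists_good_single _), rfl⟩
    · norm_num
    · norm_num

lemma count_lists_SS_step (n : ℕ) (h0 : count_lists_SS n) (h1 : count_lists_SS (n + 1)) : count_lists_SS (n + 2) := by
  obtain ⟨A0, B0, hA0, hB0, cA0, cB0⟩ := h0
  obtain ⟨A1, B1, hA1, hB1, cA1, cB1⟩ := h1
  refine ⟨A1.map (count_lists_consE (0, true)) ∪ (A0.map (count_lists_consE (1, true)) ∪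
      (A0.map (count_lists_consE (-1, true)) ∪ B0.map (count_lists_consE (1, false)))),
    B1.map (count_lists_consE (0, false)) ∪ (A0.map (count_lists_consE (1, true)) ∪
      (A0.map (count_lists_consE (-1, true)) ∪ B0.map (count_lists_consE (1, false)))), ?_, ?_, ?_, ?_⟩
  · intro l hl
    simp only [Finset.mem_union, Finset.mem_map] at hl
    rcases hl with ⟨x, hx, rfl⟩ | ⟨x, hx, rfl⟩ | ⟨x, hx, rfl⟩ | ⟨x, hx, rfl⟩
    · refine ⟨count_lists_good_cons _ _ _ _ (by simp) (by simp) (by simp) (hA1 x hx).1, ?_⟩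
      show wt ((0, true) :: x) = _
      rw [count_lists_wt_cons, (hA1 x hx).2]
      simp only [Int.natAbs_zero]; omega
    · refine ⟨count_lists_good_cons _ _ _ _ (by simp) (by simp) (by simp) (hA0 x hx).1, ?_⟩
      show wt ((1, true) :: x) = _
      rw [count_lists_wt_cons, (hA0 x hx).2]
      simp only [Int.natAbs_one]; omega
    · refine ⟨count_lists_good_cons _ _ _ _ (by simp) (by simp) (by simp) (hA0 x hx).1, ?_⟩
      show wt ((-1, true) :: x) = _
      rw [count_lists_wt_cons, (hA0 x hx).2]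
      simp only [Int.natAbs_neg, Int.natAbs_one]; omega
    · refine ⟨count_lists_good_cons _ _ _ _ (by simp) (by simp) (by simp) (hB0 x hx).1, ?_⟩
      show wt ((1, false) :: x) = _
      rw [count_lists_wt_cons, (hB0 x hx).2]
      simp only [Int.natAbs_one]; omega
  · intro l hl
    simp only [Finset.mem_union, Finset.mem_map] at hl
    rcases hl with ⟨x, hx, rfl⟩ | ⟨x, hx, rfl⟩ | ⟨x, hx, rfl⟩ | ⟨x, hx, rfl⟩
    · refine ⟨count_lists_good_cons _ _ _ _ (by simp) (by simp) (by simp) (hB1 x hx).1, ?_⟩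
      show wt ((0, false) :: x) = _
      rw [count_lists_wt_cons, (hB1 x hx).2]
      simp only [Int.natAbs_zero]; omega
    · refine ⟨count_lists_good_cons _ _ _ _ (by simp) (by simp) (by simp) (hA0 x hx).1, ?_⟩
      show wt ((1, true) :: x) = _
      rw [count_lists_wt_cons, (hA0 x hx).2]
      simp only [Int.natAbs_one]; omega
    · refine ⟨count_lists_good_cons _ _ _ _ (by simp) (by simp) (by simp) (hA0 x hx).1, ?_⟩
      show wt ((-1, true) :: x) = _
      rw [count_lists_wt_cons, (hA0 x hx).2]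
      simp only [Int.natAbs_neg, Int.natAbs_one]; omega
    · refine ⟨count_lists_good_cons _ _ _ _ (by simp) (by simp) (by simp) (hB0 x hx).1, ?_⟩
      show wt ((1, false) :: x) = _
      rw [count_lists_wt_cons, (hB0 x hx).2]
      simp only [Int.natAbs_one]; omega
  · rw [count_lists_card4 _ _ _ _ (by simp) (by simp) (by simp) (by simp) (by simp) (by simp)]
    push_cast
    have hp : (0 : ℝ) ≤ (23 / 10) ^ n := by positivity
    rw [pow_succ] at cA1
    rw [pow_add]
    nlinarith
  · rw [count_lists_card4 _ _ _ _ (by simp) (by simp) (by simp) (by simp) (by simp) (by simp)]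
    push_cast
    have hp : (0 : ℝ) ≤ (23 / 10) ^ n := by positivity
    rw [pow_succ] at cB1
    rw [pow_add]
    nlinarith

lemma count_lists_SS_all (n : ℕ) : count_lists_SS n ∧ count_lists_SS (n + 1) := by
  induction n with
  | zero => exact count_lists_SS_zero_one
  | succ n ih => exact ⟨ih.2, count_lists_SS_step n ih.1 ih.2⟩

theorem count_lists (n : ℕ) : ∃ F : Finset (List (ℤ × Bool)), (∀ l ∈ F, Good l ∧ wt l = n) ∧
    ((23 : ℝ) / 10) ^ n ≤ (23 / 10) * (F.card : ℝ) := by
  obtain ⟨FA, FB, h1, _, h3, _⟩ := (count_lists_SS_all n).1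
  refine ⟨FA, fun l hl => ⟨⟨fun b hb => (h1 l hl).1.1 b (List.mem_cons_of_mem _ hb), ?_⟩,
    (h1 l hl).2⟩, h3⟩
  exact (h1 l hl).1.2.tail

theorem beta_ge {p q : ℕ} (hp : 1 < p) (hq : p < q) (n : ℕ) :
    ((23 : ℝ) / 10) ^ n ≤ (23 / 10) * (beta p q n : ℝ) := by
  classical
  obtain ⟨F, hF, hc⟩ := count_lists n
  refine hc.trans (mul_le_mul_of_nonneg_left ?_ (by norm_num))
  have h1 : (F.image (bprod p q)).card = F.card := by
    apply Finset.card_image_of_injOn
    intro l hl l' hl' h
    exact bprod_inj hp hq l l' (hF l hl).1 (hF l' hl').1 h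
  rw [← h1]
  have h2 : (F.image (bprod p q)).card ≤ (ball p q n).ncard := by
    rw [← Set.ncard_coe_finset]
    apply Set.ncard_le_ncard _ (ball_finite p q n)
    intro g hg
    simp only [Finset.coe_image, Set.mem_image, Finset.mem_coe] at hg
    obtain ⟨l, hl, rfl⟩ := hg
    exact bprod_mem l n (hF l hl).2.le
  unfold beta
  exact_mod_cast h2

theorem growth_ge (u : ℕ → ℕ) (h : ∀ n, ((23 : ℝ) / 10) ^ n ≤ (23 / 10) * (u n : ℝ)) (ω : ℝ)
    (hω : Tendsto (fun n : ℕ => (u n : ℝ) ^ ((1 : ℝ) / n)) atTop (𝓝 ω)) : 23 / 10 ≤ ω := by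
  have h1 : Tendsto (fun n : ℕ => ((10 : ℝ) / 23) ^ ((1 : ℝ) / n)) atTop (𝓝 (((10 : ℝ) / 23) ^ (0 : ℝ))) :=
    tendsto_const_nhds.rpow tendsto_one_div_atTop_nhds_zero_nat (Or.inl (by norm_num))
  rw [Real.rpow_zero] at h1
  have h2 : Tendsto (fun n : ℕ => (23 / 10 : ℝ) * ((10 : ℝ) / 23) ^ ((1 : ℝ) / n)) atTop
      (𝓝 ((23 / 10 : ℝ) * 1)) := h1.const_mul _
  rw [mul_one] at h2
  refine le_of_tendsto_of_tendsto h2 hω ?_
  filter_upwards [eventually_ge_atTop 1] with n hn
  have hn' : (n : ℝ) ≠ 0 := by positivity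
  have h3 : ((23 : ℝ) / 10) ^ n * (10 / 23) ≤ (u n : ℝ) := by
    have := h n
    linarith
  have h4 : (23 / 10 : ℝ) * ((10 : ℝ) / 23) ^ ((1 : ℝ) / n) =
      (((23 : ℝ) / 10) ^ n * (10 / 23)) ^ ((1 : ℝ) / n) := by
    rw [Real.mul_rpow (by positivity) (by norm_num), ← Real.rpow_natCast, ← Real.rpow_mul (by norm_num),
      mul_one_div_cancel hn', Real.rpow_one]
  rw [h4]
  exact Real.rpow_le_rpow (by positivity) h3 (by positivity)

/-- For all `q > p > 1`: `β(n) ≥ 2.3^(n-1)`, so the growth rate is at least `2.3`. -/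
theorem result : ∀ p q : ℕ, 1 < p → p < q →
    (∀ n : ℕ, ((23 : ℝ) / 10) ^ n ≤ (23 / 10) * (beta p q n : ℝ)) ∧
    ∀ ω : ℝ, Tendsto (fun n : ℕ => (beta p q n : ℝ) ^ ((1 : ℝ) / n)) atTop (𝓝 ω) → 23 / 10 ≤ ω :=
  fun p q hp hq => ⟨beta_ge hp hq, growth_ge (beta p q) (beta_ge hp hq)⟩

end Pool.Agent.Results.MP_e0ec03_al.LowerBound
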